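import Pool.Agent.J6H99.NC.Stm3
import Pool.Agent.J6H99.NC.Chain
import Pool.Agent.J6H81.NC.NV2
import Pool.Agent.J6H63.NC.Sep2
import Pool.Agent.J6H38.NC.Ray2
import Pool.Agent.J6H98.NC.Bus
import Pool.Agent.J6H23.NC.Poly
import Pool.Agent.J6H23.NC.End
import Pool.Agent.J6H42.NC.VarB
import Pool.Agent.J6H62.NC.Start
import Pool.Agent.J6H28.NC.U
import Pool.Agent.J6H84.NC.Reach
import Pool.Agent.J6H75.NC.SS
import Pool.Agent.J6H59.NC.Grow
import Pool.Agent.J6H47.NC.Power

/-!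
# Assembly: no corners; infinitely many rays in dimensions two and three
-/

set_option autoImplicit false

open MeasureTheory ProbabilityTheory Filter Topology
open scoped ENNReal
open Pool.Agent.J6H99.NC

namespace Pool.Agent.J6H47.NC

/-- **No corners.** -/
theorem nocor (hCl : ClT) (e : ℕ) (q : Par) (F : Measure ℝ) [IsProbabilityMeasure F]
    (hV : VarB e q F) (hF : FarB e q F) (hN : NonDeg q F) : NoCor e q F := by
  intro ι _ D
  refine Pool.Agent.J6H23.NC.fin1 hCl Pool.Agent.J6H75.NC.ss Pool.Agent.J6H59.NC.grow power ?_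
    Pool.Agent.J6H99.NC.chain Pool.Agent.J6H28.NC.u Pool.Agent.J6H84.NC.Reach.reach e q F ι D hV hF hN
  intro e q F _ ι _ D hV hN ε h0 h1 Cs
  exact Pool.Agent.J6H62.NC.start1 D hV hN h0 h1 Cs

/-- **Infinitely many rays**, canonical model, dimensions two and three. -/
theorem fin13 (hCl : ClT) (hCov : CoverT) : Fin13T := by
  intro e he q F _ hpos hN
  obtain ⟨hV, hF⟩ := Pool.Agent.J6H42.NC.law e q F hpos
  have hNC := nocor hCl e q F hV hF hN
  have hNV := Pool.Agent.J6H81.NC.nv e q F hF hNC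
  have hall : ∀ N : ℕ, ∀ᵐ ω ∂(PM e F), ∃ R : Finset (ℕ → V e), N + 1 ≤ R.card ∧
      ∀ x ∈ R, Ray q ω x := by
    intro N
    obtain ⟨s, hs, hU⟩ := hCov Pool.Agent.J6H81.NC.dense Pool.Agent.J6H23.NC.poly e he q F hF
      hNC hNV N
    have hlb : ∀ c ∈ s, ∀ x : V e, lf c x ≤ g q F x := by
      intro c hc
      obtain ⟨y, _, _, hy⟩ := hs c hc
      exact hy.1
    obtain ⟨η, m1, hη, hsep⟩ := Pool.Agent.J6H63.NC.sep2 e q F s N hlb hU
    have hne : s.Nonempty := by
      obtain ⟨c, hc, _⟩ := hU (fun _ _ => 1) fun j h => one_ne_zero (congrFun h 0)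
      exact ⟨c, hc⟩
    exact Pool.Agent.J6H38.NC.ray2 Pool.Agent.J6H98.NC.bus e q F hV hF s N η m1 hη hne hs hsep
  filter_upwards [ae_all_iff.2 hall] with ω hω
  intro hfin
  obtain ⟨R, hR, hx⟩ := hω hfin.toFinset.card
  have h1 : R.card ≤ hfin.toFinset.card := Finset.card_le_card fun x hxR => by
    rw [Set.Finite.mem_toFinset]
    exact hx x hxR
  omega

end Pool.Agent.J6H47.NC
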