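import Pool.Agent.J6H99.NC.Stm

/-!
# First-passage percolation: cutting of walks, the mean passage time
-/

set_option autoImplicit false

open MeasureTheory ProbabilityTheory Filter Topology
open scoped ENNReal
open Pool.Agent.J6H99.NC

namespace Pool.Agent.J6H47.NC

variable {e : ℕ}

lemma T_self (q : Par) (ω : Om e) (x : V e) : T q ω x x = 0 := by
  refine le_antisymm ?_ (T_nonneg q ω x x)
  have := T_le_n1 q ω x x
  simpa using this

/-- `T` is Lipschitz -/
lemma T_lip (q : Par) (ω : Om e) (x y x' y' : V e) :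
    |T q ω x y - T q ω x' y'| ≤ q.b * n1 (x - x') + q.b * n1 (y - y') := by
  have h1 := T_tri q ω x x' y
  have h2 := T_tri q ω x' y' y
  have h3 := T_tri q ω x' x y'
  have h4 := T_tri q ω x y y'
  have h5 := T_le_n1 q ω x x'
  have h6 := T_le_n1 q ω x' x
  have h7 := T_le_n1 q ω y y'
  have h8 := T_le_n1 q ω y' y
  rw [n1_sub_comm x' x] at h5
  rw [n1_sub_comm y' y] at h7
  rw [abs_le]
  constructor <;> linarith

/-- splitting at a vertex of the walk -/
lemma cost_split (q : Par) (ω : Om e) {x y v : V e} (p : (lat e).Walk x y) (hv : v ∈ p.support) :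
    ∃ (p1 : (lat e).Walk x v) (p2 : (lat e).Walk v y), cost q ω p = cost q ω p1 + cost q ω p2 ∧
      (∀ z ∈ p1.support, z ∈ p.support) ∧ (∀ z ∈ p2.support, z ∈ p.support) := by
  classical
  refine ⟨p.takeUntil v hv, p.dropUntil v hv, ?_, ?_, ?_⟩
  · rw [← cost_append, p.take_spec hv]
  · intro z hz
    exact p.support_takeUntil_subset_support hv hz
  · intro z hz
    exact p.support_dropUntil_subset_support hv hz

/-- discrete intermediate value: a first vertex of level at least `A` -/
lemma exists_level (c : E e) {x y : V e} (p : (lat e).Walk x y) (A : ℝ) (h1 : lf c x ≤ A)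
    (h2 : A ≤ lf c y) : ∃ v ∈ p.support, A ≤ lf c v ∧ lf c v ≤ A + nr c := by
  induction p with
  | nil =>
    rename_i x
    exact ⟨x, by simp, h2, by linarith [nr_nonneg c]⟩
  | @cons x y z h p ih =>
    rcases le_or_gt A (lf c y) with h3 | h3
    · refine ⟨y, ?_, h3, ?_⟩
      · rw [SimpleGraph.Walk.support_cons]
        exact List.mem_cons_of_mem _ p.start_mem_support
      · have h4 := abs_le.1 (abs_lf_sub_le c x y)
        have h5 : n1 (x - y) = 1 := h
        rw [h5] at h4
        push_cast at h4
        linarith [h4.1]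
    · obtain ⟨v, hv, hc⟩ := ih h3.le h2
      exact ⟨v, by rw [SimpleGraph.Walk.support_cons]; exact List.mem_cons_of_mem _ hv, hc⟩

/-- lower bound for the cost of a walk which crosses `N` layers of thickness `m` -/
lemma cost_layers (q : Par) (ω : Om e) (c : E e) (B : Set (V e)) (m L : ℝ) (hm : 0 ≤ m)
    (H : ∀ x ∈ B, ∀ y ∈ B, m - nr c ≤ lf c y - lf c x → L ≤ T q ω x y) :
    ∀ (N : ℕ) (A : ℝ) (x y : V e) (p : (lat e).Walk x y), (∀ v ∈ p.support, v ∈ B) →
      lf c x ≤ A + nr c → A + N * m ≤ lf c y → N * L ≤ cost q ω p := by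
  intro N
  induction N with
  | zero =>
    intro A x y p _ _ _
    simpa using cost_nonneg q ω p
  | succ N ih =>
    intro A x y p hp hx hS
    push_cast at hS
    have hNm : (0 : ℝ) ≤ N * m := by positivity
    obtain ⟨v, hv, hv1, hv2⟩ : ∃ v ∈ p.support, A + m ≤ lf c v ∧ lf c v ≤ (A + m) + nr c := by
      rcases le_or_gt (lf c x) (A + m) with h | h
      · exact exists_level c p (A + m) h (by nlinarith)
      · exact ⟨x, p.start_mem_support, h.le, by linarith⟩
    obtain ⟨p1, p2, h1, h2, h3⟩ := cost_split q ω p hv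
    have h4 := H x (hp x p.start_mem_support) v (hp v hv) (by linarith)
    have h5 := ih (A + m) v y p2 (fun z hz => hp z (h3 z hz)) hv2 (by nlinarith)
    have h6 := T_le q ω p1
    rw [h1]
    push_cast
    linarith

/-! ### The mean passage time -/

section mean

variable (q : Par) (F : Measure ℝ) [IsProbabilityMeasure F]

lemma memLp_T (x y : V e) : MemLp (fun ω : Om e => T q ω x y) 2 (PM e F) := by
  refine MemLp.of_bound (measurable_T q x y).aestronglyMeasurable (q.b * n1 (y - x))
    (Eventually.of_forall fun ω => ?_)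
  rw [Real.norm_eq_abs, abs_of_nonneg (T_nonneg q ω x y)]
  exact T_le_n1 q ω x y

lemma integrable_T (x y : V e) : Integrable (fun ω : Om e => T q ω x y) (PM e F) :=
  (memLp_T q F x y).integrable (by norm_num)

/-- invariance of integrals of functions of the passage times -/
lemma integral_act (φ : (lat e) ≃g (lat e)) (f : ℝ → ℝ) (hf : Measurable f) (x y : V e) :
    ∫ ω, f (T q ω (φ x) (φ y)) ∂(PM e F) = ∫ ω, f (T q ω x y) ∂(PM e F) := by
  have h1 : ∫ ω, f (T q ω x y) ∂(PM e F) =
      ∫ ω, f (T q ω x y) ∂(Measure.map (act φ) (PM e F)) := by rw [(act_mp F φ).map_eq]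
  have h2 : ∫ ω, f (T q ω x y) ∂(Measure.map (act φ) (PM e F)) =
      ∫ ω, f (T q (act φ ω) x y) ∂(PM e F) :=
    integral_map (f := fun ω => f (T q ω x y)) (act_mp F φ).measurable.aemeasurable
      (hf.comp (measurable_T q x y)).aestronglyMeasurable
  rw [h1, h2]
  simp only [T_act]

lemma integral_T (x y : V e) : ∫ ω, T q ω x y ∂(PM e F) = g q F (y - x) := by
  have h := integral_act q F (tr x) (fun t => t) measurable_id 0 (y - x)
  simpa [g] using h

lemma var_T (x y : V e) :
    Var[fun ω => T q ω x y; PM e F] =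
      ∫ ω, (T q ω 0 (y - x) - g q F (y - x)) ^ 2 ∂(PM e F) := by
  have m1 := (measurable_T (e := e) q x y).aemeasurable (μ := PM e F)
  rw [variance_eq_integral m1, integral_T]
  have h := integral_act q F (tr x) (fun t => (t - g q F (y - x)) ^ 2)
    ((measurable_id.sub measurable_const).pow_const 2) 0 (y - x)
  simpa using h

lemma g_zero : g q F (0 : V e) = 0 := by
  unfold g
  simp [T_self]

lemma g_nonneg (x : V e) : 0 ≤ g q F x := integral_nonneg fun ω => T_nonneg q ω 0 x

lemma g_le (x : V e) : g q F x ≤ q.b * n1 x := by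
  have h := integral_mono (integrable_T q F 0 x) (integrable_const (q.b * n1 (x - 0)))
    (fun ω => T_le_n1 q ω 0 x)
  simpa [g] using h

lemma g_add (x y : V e) : g q F (x + y) ≤ g q F x + g q F y := by
  have h := integral_mono (integrable_T q F 0 (x + y))
    ((integrable_T q F 0 x).add (integrable_T q F x (x + y))) (fun ω => T_tri q ω 0 x (x + y))
  rw [integral_add' (integrable_T q F 0 x) (integrable_T q F x (x + y))] at h
  rw [integral_T, integral_T, integral_T] at h
  simpa using h

lemma g_neg (x : V e) : g q F (-x) = g q F x := by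
  have h := integral_act q F (refl 0) (fun t => t) measurable_id 0 x
  simpa [g] using h

lemma g_lip (x y : V e) : |g q F x - g q F y| ≤ q.b * n1 (x - y) := by
  have h1 := g_add q F y (x - y)
  have h2 := g_add q F x (y - x)
  have h3 := g_le q F (x - y)
  have h4 := g_le q F (y - x)
  rw [add_sub_cancel] at h1 h2
  rw [n1_sub_comm y x] at h4
  rw [abs_le]
  constructor <;> linarith

end mean

end Pool.Agent.J6H47.NC
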